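import Mathlib
import Pool.Agent.H17.SHD

set_option autoImplicit false

namespace Pool.Agent.Results.MP_3a5480_gt.PixleyRoy
open Set Filter Topology Pool.Agent.H17.Div

universe u

theorem escape {X : Type u} [TopologicalSpace X] (x : ℕ → X)
    (hx : ∀ φ : ℕ → ℕ, StrictMono φ → ∀ p : X, ¬ Tendsto (x ∘ φ) atTop (𝓝 p))
    {H : Set X} (hH : H.Finite) : ∀ φ : ℕ → ℕ, StrictMono φ →
      ∃ V : Set X, IsOpen V ∧ H ⊆ V ∧ ∃ᶠ n in atTop, x (φ n) ∉ V := by
  induction H, hH using Set.Finite.induction_on with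
  | empty => exact fun φ _ => ⟨∅, isOpen_empty, Subset.rfl, Frequently.of_forall fun _ h => h⟩
  | @insert a H _ _ ih =>
    intro φ hφ
    have h1 := hx φ hφ a
    rw [tendsto_nhds] at h1
    push Not at h1
    obtain ⟨V, hV, haV, h1⟩ := h1
    obtain ⟨ψ, hψ, h2⟩ := extraction_of_frequently_atTop (not_eventually.1 h1)
    obtain ⟨W, hW, hHW, h3⟩ := ih (φ ∘ ψ) (hφ.comp hψ)
    refine ⟨V ∪ W, hV.union hW, insert_subset (Or.inl haV) (hHW.trans subset_union_right), ?_⟩
    exact hψ.tendsto_atTop.frequently (h3.mono fun n hn h => h.elim (h2 n) hn)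

theorem result (X : Type u) [TopologicalSpace X] [T1Space X] (h : SHD X) : SHD (PR X) := by
  intro U hU hne
  choose F hF using hne
  choose V hV hFV hVU using fun n => hU n (F n) (hF n)
  obtain ⟨x, hx, hx'⟩ := h V hV fun n => (F n).2.2.mono (hFV n)
  refine ⟨fun n => ⟨insert (x n) (F n).1, (F n).2.1.insert _, insert_nonempty _ _⟩,
    fun n => hVU n _ (subset_insert _ _) (insert_subset (hx n) (hFV n)), fun φ hφ G hG => ?_⟩
  obtain ⟨W, hW, hGW, h1⟩ := escape x hx' G.2.1 φ hφ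
  obtain ⟨n, h2, h3⟩ := (h1.and_eventually (pr_ev hG hW hGW)).exists
  exact h2 (h3 (mem_insert _ _))

end Pool.Agent.Results.MP_3a5480_gt.PixleyRoy
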